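import Pool.Agent.Helper94.MDS.Main

/-!
# Log Calabi-Yau pairs with `n + rank Cl(X) - 1` boundary components

No `ℚ`-factoriality is assumed: the Picard rank is replaced by the rank `r` of the divisor class
group `Cl(X) ⊗ ℚ`. If the Cox ring of `X` is finitely generated, then every log Calabi-Yau pair
`(X, B)` of index one with exactly `n + r - 1` boundary components is of cluster type.
-/

namespace Pool.Agent.Results.MP_c22f44_ag.ClassRankClusterType

open Pool.Agent.Helper94.LCY

/-- Let `X` be a normal projective variety, and let the Weil divisors `D_1, ..., D_r` be a basis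
of `Cl(X) ⊗ ℚ` such that the Cox ring of `X` with respect to them is finitely generated. Then
every log Calabi-Yau pair `(X, B)` of dimension `n` and index one with exactly `n + r - 1`
boundary components is of cluster type. -/
theorem result {K : Type} [Field K] [Algebra ℂ K] {ι : Type} [Finite ι] (X : ProjVar K ι)
    (B : X.PrimeDiv → ℚ) (n : ℕ) (h1 : IsLogCY n X B) (h2 : IndexOne n X B) {r : ℕ}
    (D : Fin r → X.WeilDiv) (hD : X.IsClassBasis D) (hC : (X.coxRing D).FG)
    (h3 : (Function.support B).ncard + 1 = n + r) : IsClusterType n X B :=
  clusterType_class X B n h1 h2 hD h3 (Or.inl hC)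

end Pool.Agent.Results.MP_c22f44_ag.ClassRankClusterType
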