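import Pool.Agent.Helper94.MDS.Main

/-!
# Log Calabi-Yau pairs with `n + ρ - 1` boundary components and independent units

Let `(X, B)` be a log Calabi-Yau pair of dimension `n`, index one and Picard rank `ρ`, whose
boundary has exactly `n + ρ - 1` components, where `X` is `ℚ`-factorial with finitely generated
Picard group. If the invertible functions on the complement of `B` which are multiplicatively
independent modulo constants are algebraically independent, then `(X, B)` is of cluster type.
-/

namespace Pool.Agent.Results.MP_c22f44_ag.UnitsClusterType

open Pool.Agent.Helper94.LCY

/-- A log Calabi-Yau pair `(X, B)` of dimension `n` and index one with `n + ρ - 1` boundary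
components, `X` being `ℚ`-factorial with finitely generated Picard group, is of cluster type if
invertible functions on the complement of `B` which are multiplicatively independent modulo
constants are algebraically independent. -/
theorem result {K : Type} [Field K] [Algebra ℂ K] {ι : Type} [Finite ι] (X : ProjVar K ι)
    (B : X.PrimeDiv → ℚ) (n : ℕ) (h1 : IsLogCY n X B) (h2 : IndexOne n X B)
    (h3 : (Function.support B).ncard + 1 = n + X.picardRank) (hQ : X.IsQFactorial)
    (hfg : AddGroup.FG X.Pic) (hU : X.UnitsIndependent B) : IsClusterType n X B :=
  clusterType_units X B n h1 h2 h3 hQ hfg hU

end Pool.Agent.Results.MP_c22f44_ag.UnitsClusterType
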